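import Pool.Agent.PFC.StmtsB5a

/-!
Squad PFC, block B5a, row QTP: `A(Q)(V) = A(V) = F V`, and the centraliser of `V` in `A(Q)` is local.
-/

set_option autoImplicit false

noncomputable section

namespace Pool.Agent.PFC.B5a.H83

section

variable {F V A B : Type} [Field F] [CommGroup V] [Ring A] [Algebra F A] [Ring B] [Algebra F B]

lemma mem_Cz (α : V →* A) (Q : Subgroup V) (a : A) :
    a ∈ Cz F α Q ↔ ∀ u ∈ Q, α u * a = a * α u := by
  unfold Cz
  rw [Subalgebra.mem_centralizer_iff]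
  constructor
  · intro h u hu
    exact h _ ⟨u, hu, rfl⟩
  · rintro h _ ⟨u, hu, rfl⟩
    exact h u hu

lemma cj_apply (α : V →* A) (u : V) (a : A) : cj F α u a = α u * a * α u⁻¹ := by
  change α u * (a * α u⁻¹) = _
  rw [mul_assoc]

/-- the Brauer kernel in terms of a frame of the bimodule -/
lemma diag_iff {ℓ : ℕ} [Fact ℓ.Prime] [CharP F ℓ] [Finite V] {α : V →* A} {Ω : Type} [Fintype Ω]
    [MulAction (V × V) Ω] {b : Ω → A} {c : Ω → (A →ₗ[F] F)} (hfr : IsFr (bi F α) b c)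
    (P : Subgroup V) (hP : IsPGroup ℓ P) {m : A} (hm : m ∈ Fx (cj F α) P) :
    m ∈ BK (cj F α) P ↔ ∀ ω : Ω, (∀ u ∈ P, ((u, u) : V × V) • ω = ω) → c ω m = 0 := by
  let : MulAction V Ω := MulAction.compHom Ω ((MonoidHom.id V).prod (MonoidHom.id V))
  have h : IsFr (cj F α) b c :=
    ⟨fun h ω => hfr.1 (h, h) ω, fun h ω m => hfr.2.1 (h, h) ω m, hfr.2.2⟩
  exact frame_iff h P hP hm

lemma Cz_top_le (α : V →* A) (Q : Subgroup V) : Cz F α ⊤ ≤ Cz F α Q := by
  intro a ha
  rw [mem_Cz] at ha ⊢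
  exact fun u _ => ha u (Subgroup.mem_top u)

lemma q_mem (α : V →* A) (Q : Subgroup V) (q : Cz F α Q →ₐ[F] B) (a : Cz F α ⊤) :
    q (Subalgebra.inclusion (Cz_top_le α Q) a) ∈ Cz F (be F α Q q) ⊤ := by
  rw [mem_Cz]
  intro u _
  have h1 : be F α Q q u = q (zin F α Q u) := rfl
  rw [h1, ← map_mul, ← map_mul]
  refine congrArg q (Subtype.ext ?_)
  exact (mem_Cz α ⊤ (a : A)).1 a.2 u (Subgroup.mem_top u)

/-- the map `Cz F α ⊤ → Cz F (be F α Q q) ⊤` -/
def gg (α : V →* A) (Q : Subgroup V) (q : Cz F α Q →ₐ[F] B) :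
    Cz F α ⊤ →ₐ[F] Cz F (be F α Q q) ⊤ :=
  (q.comp (Subalgebra.inclusion (Cz_top_le α Q))).codRestrict _ (q_mem α Q q)

end

theorem qtpa : QtpStmt := by
  classical
  intro bki qfc ℓ _ F V A B _ _ _ _ _ _ _ _ α Q q X hV hq hps htp hloc
  obtain ⟨Ω, _, _, b, c, hfr, -⟩ := hps
  obtain ⟨Ω', _, _, j, b', c', hfr', hj, hfx, hje, hc, hb⟩ :=
    qfc bki ℓ F V A B α Q q Ω b c hV hq hfr
  have hPG : ∀ P : Subgroup V, IsPGroup ℓ P := fun P => hV.to_subgroup P
  -- fixed vectors and centralisers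
  have hFA : ∀ a : A, a ∈ Fx (cj F α) ⊤ ↔ a ∈ Cz F α ⊤ := (bki F V A α ⊤).1
  have hFB : ∀ x : B, x ∈ Fx (cj F (be F α Q q)) ⊤ ↔ x ∈ Cz F (be F α Q q) ⊤ :=
    (bki F V B (be F α Q q) ⊤).1
  -- (1) lifting
  have lift : ∀ x : Cz F (be F α Q q) ⊤, ∃ a : Cz F α ⊤, gg α Q q a = x := by
    intro x
    choose s hs1 hs2 using hb
    have hxf := (hFB x).2 x.2
    have hinv : ∀ (u : V) (ω' : Ω'), c' (((u, u) : V × V) • ω') x = c' ω' x := by
      intro u ω'
      have h := hfr'.2.1 (u, u) ω' x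
      have h2 : bi F (be F α Q q) (u, u) (x : B) = x := hxf u (Subgroup.mem_top u)
      rwa [h2] at h
    let y : Cz F α Q := ∑ ω', c' ω' x • s ω'
    have hy : (y : A) = ∑ ω', c' ω' x • b (j ω') := by
      simp only [y]
      rw [AddSubmonoidClass.coe_finsetSum]
      refine Finset.sum_congr rfl fun ω' _ => ?_
      rw [← hs1]
      rfl
    have hyF : (y : A) ∈ Fx (cj F α) ⊤ := by
      intro u _
      rw [hy, map_sum]
      have h1 : ∀ ω', cj F α u (c' ω' x • b (j ω')) =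
          c' (((u, u) : V × V) • ω') x • b (j (((u, u) : V × V) • ω')) := by
        intro ω'
        rw [map_smul, hinv, hje, hfr.1]
        rfl
      rw [Finset.sum_congr rfl fun ω' _ => h1 ω']
      exact Equiv.sum_comp (MulAction.toPerm ((u, u) : V × V)) fun ω' => c' ω' x • b (j ω')
    refine ⟨⟨y, (hFA y).1 hyF⟩, Subtype.ext ?_⟩
    have h2 : (gg α Q q ⟨y, (hFA y).1 hyF⟩ : B) = q y := rfl
    rw [h2]
    simp only [y]
    rw [map_sum]
    conv_rhs => rw [← hfr'.2.2 (x : B)]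
    refine Finset.sum_congr rfl fun ω' _ => ?_
    rw [map_smul, hs2]
  -- (2) the Brauer kernels
  have hBK : ∀ a : Cz F α ⊤, ((gg α Q q a : B) ∈ BK (cj F (be F α Q q)) ⊤ ↔
      (a : A) ∈ BK (cj F α) ⊤) := by
    intro a
    rw [diag_iff hfr ⊤ (hPG ⊤) ((hFA a).2 a.2),
      diag_iff hfr' ⊤ (hPG ⊤) ((hFB _).2 (gg α Q q a).2)]
    have h1 : ∀ ω', c' ω' (gg α Q q a : B) = c (j ω') (a : A) := by
      intro ω'
      exact hc ω' _
    constructor
    · intro h ω hω
      obtain ⟨ω', rfl⟩ := (hfx ω).2 fun u _ => hω u (Subgroup.mem_top u)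
      rw [← h1]
      refine h ω' fun u hu => ?_
      apply hj
      rw [hje]
      exact hω u hu
    · intro h ω' hω'
      rw [h1]
      refine h (j ω') fun u hu => ?_
      rw [← hje, hω' u hu]
  have hsum : ∀ k : V → F, ∃ a : Cz F α ⊤, (a : A) = ∑ u, k u • α u ∧
      (gg α Q q a : B) = ∑ u, k u • be F α Q q u := by
    intro k
    let y : Cz F α ⊤ := ∑ u, k u • zin F α ⊤ u
    have hy : (y : A) = ∑ u, k u • α u := by
      simp only [y]
      rw [AddSubmonoidClass.coe_finsetSum]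
      rfl
    refine ⟨y, hy, ?_⟩
    have h2 : (gg α Q q y : B) = q (∑ u, k u • zin F α Q u) := by
      refine congrArg q (Subtype.ext ?_)
      rw [AddSubmonoidClass.coe_finsetSum]
      exact hy
    rw [h2, map_sum]
    refine Finset.sum_congr rfl fun u _ => ?_
    rw [map_smul]
    rfl
  -- (3)
  have htpv : Tpv F (be F α Q q) := by
    constructor
    · intro x hx
      obtain ⟨a, ha⟩ := lift ⟨x, (hFB x).1 hx⟩
      obtain ⟨k, hk⟩ := htp.span a ((hFA a).2 a.2)
      obtain ⟨s, hs1, hs2⟩ := hsum k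
      refine ⟨k, ?_⟩
      have h1 : (gg α Q q (a - s) : B) = x - ∑ u, k u • be F α Q q u := by
        rw [map_sub, ha, ← hs2]
        rfl
      rw [← h1, hBK]
      have h2 : ((a - s : Cz F α ⊤) : A) = a - ∑ u, k u • α u := by
        rw [← hs1]
        rfl
      rw [h2]
      exact hk
    · intro k hk
      obtain ⟨s, hs1, hs2⟩ := hsum k
      rw [← hs2, hBK, hs1] at hk
      exact htp.free k hk
  refine ⟨htpv, ?_⟩
  -- (4)
  have hnt : Nontrivial (Cz F (be F α Q q) ⊤) := by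
    refine ⟨1, 0, fun h => ?_⟩
    have hB : (1 : B) = 0 := congrArg Subtype.val h
    have h1 : (∑ u : V, (Pi.single 1 1 : V → F) u • be F α Q q u) ∈
        BK (cj F (be F α Q q)) ⊤ := by
      have h2 : (∑ u : V, (Pi.single 1 1 : V → F) u • be F α Q q u) = (0 : B) := by
        rw [← mul_one (∑ u : V, (Pi.single 1 1 : V → F) u • be F α Q q u), hB, mul_zero]
      rw [h2]
      exact Submodule.zero_mem _
    have h3 := congrFun (htpv.free _ h1) 1
    rw [Pi.single_eq_same] at h3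
    exact one_ne_zero h3
  refine IsLocalRing.of_is_unit_or_is_unit_of_add_one fun {x y} hxy => ?_
  obtain ⟨a, ha⟩ := lift x
  have hy : gg α Q q (1 - a) = y := by
    rw [map_sub, map_one, ha, ← hxy, add_sub_cancel_left]
  rcases hloc.isUnit_or_isUnit_of_add_one (add_sub_cancel a 1) with h | h
  · left
    rw [← ha]
    exact h.map (gg α Q q)
  · right
    rw [← hy]
    exact h.map (gg α Q q)

end Pool.Agent.PFC.B5a.H83
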