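import Pool.Agent.PFC.StmtsB3

/-!
Squad PFC, block B3, row BAS: the reduced monomials are a basis of the quotient.
-/

set_option autoImplicit false

noncomputable section

namespace Pool.Agent.PFC.B3.H83

open MvPolynomial

section

variable {k I : Type} [CommRing k] [Fintype I] (q : I → ℕ) (f : I → MvPolynomial I k)

/-- the product of the relations -/
def tm (γ : I →₀ ℕ) : MvPolynomial I k :=
  ∏ i, (X i ^ q i - f i) ^ (γ i / q i) * X i ^ (γ i % q i)

/-- the linear map with `T (x ^ γ)` = the product of the relations -/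
def TT : MvPolynomial I k →ₗ[k] MvPolynomial I k :=
  (basisMonomials I k).constr k (tm q f)

lemma TT_monomial (γ : I →₀ ℕ) : TT q f (monomial γ 1) = tm q f γ := by
  have h := (basisMonomials I k).constr_basis k (tm q f) γ
  rwa [coe_basisMonomials] at h

lemma mul_tm (hq : ∀ i, 0 < q i) (i : I) (γ : I →₀ ℕ) :
    (X i ^ q i - f i) * tm q f γ = tm q f (Finsupp.single i (q i) + γ) := by
  classical
  rw [tm, tm, ← Finset.mul_prod_erase Finset.univ _ (Finset.mem_univ i),
    ← Finset.mul_prod_erase Finset.univ _ (Finset.mem_univ i)]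
  have h1 : (Finsupp.single i (q i) + γ) i = γ i + q i := by
    rw [Finsupp.add_apply, Finsupp.single_eq_same, add_comm]
  have h2 : ∏ x ∈ Finset.univ.erase i, (X x ^ q x - f x) ^ ((Finsupp.single i (q i) + γ) x / q x) *
      X x ^ ((Finsupp.single i (q i) + γ) x % q x) =
      ∏ x ∈ Finset.univ.erase i, (X x ^ q x - f x) ^ (γ x / q x) * X x ^ (γ x % q x) := by
    refine Finset.prod_congr rfl fun x hx => ?_
    have hxi : i ≠ x := fun h => (Finset.ne_of_mem_erase hx) h.symm
    rw [Finsupp.add_apply, Finsupp.single_eq_of_ne' hxi, zero_add]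
  rw [h2, h1, Nat.add_div_right _ (hq i), Nat.add_mod_right, pow_succ]
  ring

lemma mul_TT (hq : ∀ i, 0 < q i) (i : I) (s : MvPolynomial I k) :
    (X i ^ q i - f i) * TT q f s = TT q f (X i ^ q i * s) := by
  have h : (LinearMap.mulLeft k (X i ^ q i - f i)).comp (TT q f) =
      (TT q f).comp (LinearMap.mulLeft k (X i ^ q i)) := by
    refine (basisMonomials I k).ext fun γ => ?_
    rw [coe_basisMonomials, LinearMap.comp_apply, LinearMap.comp_apply, LinearMap.mulLeft_apply,
      LinearMap.mulLeft_apply, TT_monomial, mul_tm q f hq, X_pow_eq_monomial, monomial_mul, mul_one,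
      TT_monomial]
  exact congrArg (fun g : MvPolynomial I k →ₗ[k] MvPolynomial I k => g s) h

/-- the polynomials without reduced monomials -/
def NN (k : Type) [CommRing k] : Submodule k (MvPolynomial I k) where
  carrier := {s | ∀ γ : I →₀ ℕ, (∀ i, γ i < q i) → coeff γ s = 0}
  add_mem' := by
    intro a b ha hb γ hγ
    rw [coeff_add, ha γ hγ, hb γ hγ, add_zero]
  zero_mem' := by
    intro γ _
    exact coeff_zero γ
  smul_mem' := by
    intro c a ha γ hγ
    rw [coeff_smul, ha γ hγ, smul_zero]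

omit [Fintype I] in
lemma mul_mem_NN (i : I) (s : MvPolynomial I k) : X i ^ q i * s ∈ NN q k := by
  intro γ hγ
  rw [X_pow_eq_monomial, coeff_monomial_mul', if_neg]
  intro h
  have h1 := h i
  rw [Finsupp.single_eq_same] at h1
  exact absurd (hγ i) (not_lt.2 h1)

lemma tm_mem (γ : I →₀ ℕ) (hq : ∀ i, 0 < q i) (h : ∃ i, q i ≤ γ i) : tm q f γ ∈ JJ q f := by
  classical
  obtain ⟨i, hi⟩ := h
  rw [tm, ← Finset.mul_prod_erase Finset.univ _ (Finset.mem_univ i)]
  refine Ideal.mul_mem_right _ _ (Ideal.mul_mem_right _ _ ?_)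
  refine Ideal.pow_mem_of_mem _ ?_ _ (Nat.div_pos hi (hq i))
  exact Ideal.subset_span ⟨i, rfl⟩

lemma TT_mem (hq : ∀ i, 0 < q i) (s : MvPolynomial I k) (hs : s ∈ NN q k) :
    TT q f s ∈ JJ q f := by
  rw [s.as_sum, map_sum]
  refine Ideal.sum_mem _ fun γ hγ => ?_
  have h1 : (monomial γ (coeff γ s) : MvPolynomial I k) = coeff γ s • monomial γ 1 := by
    rw [smul_monomial, smul_eq_mul, mul_one]
  rw [h1, map_smul, TT_monomial, smul_eq_C_mul]
  refine Ideal.mul_mem_left _ _ (tm_mem q f γ hq ?_)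
  by_contra hcon
  push Not at hcon
  exact (mem_support_iff.1 hγ) (hs γ hcon)

lemma JJ_sub (hq : ∀ i, 0 < q i) (hT : Function.Surjective (TT q f)) (x : MvPolynomial I k)
    (hx : x ∈ JJ q f) : ∃ s ∈ NN q k, TT q f s = x := by
  obtain ⟨c, hc⟩ := (Ideal.mem_span_range_iff_exists_fun).1 hx
  choose s hs using fun i => hT (c i)
  refine ⟨∑ i, X i ^ q i * s i, Submodule.sum_mem _ fun i _ => mul_mem_NN q i (s i), ?_⟩
  rw [← hc, map_sum]
  refine Finset.sum_congr rfl fun i _ => ?_
  rw [← mul_TT q f hq, hs i, mul_comm]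

/-- the exponent of a reduced monomial -/
def fs {q : I → ℕ} (α : ∀ i, Fin (q i)) : I →₀ ℕ := Finsupp.equivFunOnFinite.symm fun i => (α i : ℕ)

lemma fs_apply {q : I → ℕ} (α : ∀ i, Fin (q i)) (i : I) : fs α i = α i := rfl

lemma fs_inj {q : I → ℕ} {α β : ∀ i, Fin (q i)} (h : fs α = fs β) : α = β := by
  funext i
  apply Fin.ext
  exact congrArg (fun g : I →₀ ℕ => g i) h

lemma TT_red (α : ∀ i, Fin (q i)) : TT q f (monomial (fs α) 1) = mo k I α := by
  rw [TT_monomial, tm, mo]
  refine Finset.prod_congr rfl fun i _ => ?_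
  rw [fs_apply, Nat.div_eq_of_lt (α i).2, Nat.mod_eq_of_lt (α i).2, pow_zero, one_mul]

end

theorem bas (top : TopStmt) (bij : BijStmt) : BasStmt := by
  classical
  intro k I _ _ q f hq hf
  have hT : Function.Bijective (TT q f) := by
    refine bij k I (TT q f) fun γ => ?_
    rw [TT_monomial]
    exact top k I q f hq hf γ
  have hli : LinearIndependent k
      (fun α : ∀ i, Fin (q i) => Ideal.Quotient.mkₐ k (JJ q f) (mo k I α)) := by
    rw [Fintype.linearIndependent_iff]
    intro g hg
    have h1 : ∑ α, g α • mo k I α ∈ JJ q f := by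
      rw [← Ideal.Quotient.eq_zero_iff_mem, ← Ideal.Quotient.mkₐ_eq_mk k, map_sum]
      simpa using hg
    obtain ⟨s, hs, hs'⟩ := JJ_sub q f hq hT.2 _ h1
    have h2 : TT q f (∑ α : ∀ i, Fin (q i), g α • monomial (fs α) 1) = TT q f s := by
      rw [hs', map_sum]
      refine Finset.sum_congr rfl fun α _ => ?_
      rw [map_smul, TT_red]
    have h3 := hT.1 h2
    intro α
    have h4 : coeff (fs α) (∑ β : ∀ i, Fin (q i), g β • (monomial (fs β) 1 : MvPolynomial I k)) =
        0 := by
      rw [h3]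
      exact hs _ fun i => (α i).2
    rw [coeff_sum, Finset.sum_eq_single α] at h4
    · rwa [coeff_smul, coeff_monomial, if_pos rfl, smul_eq_mul, mul_one] at h4
    · intro β _ hβ
      rw [coeff_smul, coeff_monomial, if_neg, smul_zero]
      intro h
      exact hβ (fs_inj h)
    · intro h
      exact absurd (Finset.mem_univ α) h
  have hsp : ⊤ ≤ Submodule.span k (Set.range
      (fun α : ∀ i, Fin (q i) => Ideal.Quotient.mkₐ k (JJ q f) (mo k I α))) := by
    intro z _
    obtain ⟨x, rfl⟩ := Ideal.Quotient.mkₐ_surjective k (JJ q f) z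
    obtain ⟨s, rfl⟩ := hT.2 x
    rw [s.as_sum, map_sum, map_sum]
    refine Submodule.sum_mem _ fun γ _ => ?_
    have h1 : (monomial γ (coeff γ s) : MvPolynomial I k) = coeff γ s • monomial γ 1 := by
      rw [smul_monomial, smul_eq_mul, mul_one]
    rw [h1, map_smul, map_smul]
    refine Submodule.smul_mem _ _ ?_
    by_cases hγ : ∀ i, γ i < q i
    · have h2 : γ = fs (q := q) fun i => ⟨γ i, hγ i⟩ := by
        ext i
        rfl
      rw [h2, TT_red]
      exact Submodule.subset_span ⟨_, rfl⟩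
    · push Not at hγ
      have h3 : Ideal.Quotient.mkₐ k (JJ q f) (TT q f (monomial γ 1)) = 0 := by
        rw [Ideal.Quotient.mkₐ_eq_mk, Ideal.Quotient.eq_zero_iff_mem, TT_monomial]
        exact tm_mem q f γ hq hγ
      rw [h3]
      exact Submodule.zero_mem _
  refine ⟨Module.Basis.mk hli hsp, fun α => ?_⟩
  rw [Module.Basis.mk_apply]
  rfl

end Pool.Agent.PFC.B3.H83
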